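import Pool.Agent.Lib.MP_32269d_co.Defs

/-!
# The bound `disc_n(S) ≥ 2 - 3/(2n) - C/n^2` fails for some infinite-length strategy

We use the strategy which cuts the intervals
`[2(1 - 2^(-i/2^k)), 2(1 - 2^(-(i+1)/2^k))]`, `i = 0, ..., 2^k - 1`, one after the other.
-/

namespace Pool.Agent.Results.MP_32269d_co.Disproof

open Pool.Agent.Lib.MP_32269d_co

/-- The number `2^(-1/2^k)`. -/
noncomputable def r (k : ℕ) : ℝ := (1 / 2 : ℝ) ^ ((1 : ℝ) / 2 ^ k)

theorem r_pos (k : ℕ) : 0 < r k := Real.rpow_pos_of_pos (by norm_num) _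

theorem r_lt_one (k : ℕ) : r k < 1 :=
  Real.rpow_lt_one (by norm_num) (by norm_num) (by positivity)

theorem r_sq (k : ℕ) : r (k + 1) ^ 2 = r k := by
  unfold r
  rw [← Real.rpow_natCast, ← Real.rpow_mul (by norm_num)]
  congr 1
  rw [pow_succ]
  push_cast
  field_simp

theorem r_pow (k : ℕ) : r k ^ (2 ^ k) = 1 / 2 := by
  induction k with
  | zero => simp [r]
  | succ k ih => rw [pow_succ, mul_comm, pow_mul, r_sq, ih]

theorem r_mono (k : ℕ) : r k ≤ r (k + 1) := by
  rw [← r_sq]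
  nlinarith [r_pos (k + 1), r_lt_one (k + 1)]

/-- The `i`-th interval at level `k`. -/
noncomputable def J (k i : ℕ) : ℝ × ℝ := (2 * (1 - r k ^ i), 2 * (1 - r k ^ (i + 1)))

theorem len_J (k i : ℕ) : len (J k i) = 2 * r k ^ i * (1 - r k) := by
  unfold len J; simp only; ring

/-- The partition at time `2^k + s`. -/
noncomputable def G (k s : ℕ) : Finset (ℝ × ℝ) :=
  (Finset.range (2 * s)).image (J (k + 1)) ∪ (Finset.Ico s (2 ^ k)).image (J k)

theorem G_top (k : ℕ) : G k (2 ^ k) = G (k + 1) 0 := by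
  unfold G
  rw [Finset.Ico_self, Finset.image_empty, Finset.union_empty, mul_zero, Finset.range_zero,
    Finset.image_empty, Finset.empty_union, Nat.Ico_zero_eq_range, pow_succ, mul_comm]

theorem pow_lt {k i j : ℕ} (h : i < j) : r k ^ j < r k ^ i :=
  pow_lt_pow_right_of_lt_one₀ (r_pos k) (r_lt_one k) h

theorem J_fst (k i : ℕ) : (J k i).1 = 2 * (1 - r (k + 1) ^ (2 * i)) := by
  unfold J; simp only; rw [pow_mul, r_sq]

theorem J_snd (k i : ℕ) : (J k i).2 = 2 * (1 - r (k + 1) ^ (2 * i + 2)) := by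
  unfold J; simp only
  rw [show 2 * i + 2 = 2 * (i + 1) by ring, pow_mul, r_sq]

theorem J_left (k i : ℕ) : J (k + 1) (2 * i) = ((J k i).1, 2 * (1 - r (k + 1) ^ (2 * i + 1))) := by
  rw [J_fst]; rfl

theorem J_right (k i : ℕ) :
    J (k + 1) (2 * i + 1) = (2 * (1 - r (k + 1) ^ (2 * i + 1)), (J k i).2) := by
  rw [J_snd]; rfl

theorem G_step {k s : ℕ} (hs : s < 2 ^ k) :
    G k (s + 1) = insert ((J k s).1, 2 * (1 - r (k + 1) ^ (2 * s + 1)))
      (insert (2 * (1 - r (k + 1) ^ (2 * s + 1)), (J k s).2)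
        ((G k s).erase ((J k s).1, (J k s).2))) := by
  rw [← J_left, ← J_right]
  have hJ : ((J k s).1, (J k s).2) = J k s := rfl
  rw [hJ]
  have h1 : ∀ i, i < 2 * s → J (k + 1) i ≠ J k s := by
    intro i hi h
    have h3 := congrArg Prod.fst h
    rw [J_fst k s] at h3
    simp only [J] at h3
    have h4 := pow_lt (k := k + 1) hi
    linarith
  have h2 : ∀ i, s < i → J k i ≠ J k s := by
    intro i hi h
    have := congrArg Prod.fst h
    simp only [J] at this
    have := pow_lt (k := k) hi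
    linarith
  ext I
  simp only [G, Finset.mem_union, Finset.mem_image, Finset.mem_range, Finset.mem_Ico,
    Finset.mem_insert, Finset.mem_erase]
  constructor
  · rintro (⟨i, hi, rfl⟩ | ⟨i, ⟨hi, hi'⟩, rfl⟩)
    · rcases Nat.lt_or_ge i (2 * s) with h | h
      · exact Or.inr (Or.inr ⟨h1 i h, Or.inl ⟨i, h, rfl⟩⟩)
      · rcases Nat.eq_or_lt_of_le h with h | h
        · left; rw [h]
        · right; left
          have : i = 2 * s + 1 := by omega
          rw [this]
    · exact Or.inr (Or.inr ⟨h2 i hi, Or.inr ⟨i, ⟨by omega, hi'⟩, rfl⟩⟩)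
  · rintro (rfl | rfl | ⟨hne, ⟨i, hi, rfl⟩ | ⟨i, ⟨hi, hi'⟩, rfl⟩⟩)
    · exact Or.inl ⟨2 * s, by omega, rfl⟩
    · exact Or.inl ⟨2 * s + 1, by omega, rfl⟩
    · exact Or.inl ⟨i, by omega, rfl⟩
    · refine Or.inr ⟨i, ⟨?_, hi'⟩, rfl⟩
      rcases Nat.eq_or_lt_of_le hi with h | h
      · exact absurd (by rw [h]) hne
      · exact h

/-- The strategy. -/
noncomputable def S0 : Strategy where
  part n := G (Nat.log 2 n) (n - 2 ^ Nat.log 2 n)
  start := by
    simp [G, J, r]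
    norm_num
  step := by
    intro n hn
    have h1 : 2 ^ Nat.log 2 n ≤ n := Nat.pow_log_le_self 2 (by omega)
    have h2 : n < 2 ^ (Nat.log 2 n + 1) := Nat.lt_pow_succ_log_self (by norm_num) n
    set k := Nat.log 2 n with hk
    obtain ⟨s, hs⟩ : ∃ s, n = 2 ^ k + s := ⟨n - 2 ^ k, by omega⟩
    have hs2 : s < 2 ^ k := by rw [pow_succ] at h2; omega
    have e1 : n - 2 ^ k = s := by omega
    have e2 : G (Nat.log 2 (n + 1)) (n + 1 - 2 ^ Nat.log 2 (n + 1)) = G k (s + 1) := by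
      rcases Nat.lt_or_ge (s + 1) (2 ^ k) with h | h
      · have : Nat.log 2 (n + 1) = k := by
          rw [Nat.log_eq_iff (Or.inr ⟨by norm_num, by omega⟩)]
          refine ⟨by omega, ?_⟩
          rw [pow_succ]; omega
        rw [this]
        congr 1; omega
      · have h3 : s + 1 = 2 ^ k := by omega
        have h4 : n + 1 = 2 ^ (k + 1) := by rw [pow_succ]; omega
        rw [h4, Nat.log_pow (by norm_num), h3, G_top, Nat.sub_self]
    refine ⟨(J k s).1, (J k s).2, 2 * (1 - r (k + 1) ^ (2 * s + 1)), ?_, ?_, ?_, ?_⟩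
    · rw [e1]
      exact Finset.mem_union_right _ (Finset.mem_image.2 ⟨s, Finset.mem_Ico.2 ⟨le_rfl, hs2⟩, rfl⟩)
    · rw [J_fst]
      have := pow_lt (k := k + 1) (show 2 * s < 2 * s + 1 by omega)
      linarith
    · rw [J_snd]
      have := pow_lt (k := k + 1) (show 2 * s + 1 < 2 * s + 2 by omega)
      linarith
    · rw [e1, e2]
      exact G_step hs2

theorem S0_part {k s : ℕ} (hs : s < 2 ^ k) : S0.part (2 ^ k + s) = G k s := by
  have : Nat.log 2 (2 ^ k + s) = k := by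
    rw [Nat.log_eq_iff (Or.inr ⟨by norm_num, by positivity⟩)]
    refine ⟨by omega, ?_⟩
    rw [pow_succ]; omega
  show G (Nat.log 2 (2 ^ k + s)) (2 ^ k + s - 2 ^ Nat.log 2 (2 ^ k + s)) = G k s
  rw [this]
  congr 1; omega

/-- `h^(2 i) ≥ h^(-2)/2` for `i < 2^k`, where `h = r (k+1)`. -/
theorem pow_ge {k i : ℕ} (hi : i < 2 ^ k) : 1 / 2 ≤ r (k + 1) ^ (2 * i) * r (k + 1) ^ 2 := by
  rw [← pow_add, ← r_pow (k + 1)]
  apply pow_le_pow_of_le_one (r_pos _).le (r_lt_one _).le
  rw [pow_succ]; omega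

/-- All ratios at times between `2^k` and `2^(k+1) - 1` are at most `h + h^2`, `h = r (k+1)`. -/
theorem disc_G {k s : ℕ} (hs : s < 2 ^ k) : disc (G k s) ≤ r (k + 1) + r (k + 1) ^ 2 := by
  set h := r (k + 1) with hh
  have h0 : 0 < h := r_pos _
  have h1 : h < 1 := r_lt_one _
  have hk : r k = h ^ 2 := (r_sq k).symm
  have hne : (G k s).Nonempty :=
    ⟨J k s, Finset.mem_union_right _
      (Finset.mem_image.2 ⟨s, Finset.mem_Ico.2 ⟨le_rfl, hs⟩, rfl⟩)⟩
  -- lengths of the two kinds of intervals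
  have l1 : ∀ i, len (J (k + 1) i) = 2 * h ^ i * (1 - h) := fun i => len_J _ _
  have l2 : ∀ i, len (J k i) = 2 * h ^ (2 * i) * (1 - h ^ 2) := by
    intro i; rw [len_J, hk, ← pow_mul]
  have hpos : ∀ I ∈ G k s, 0 < len I := by
    intro I hI
    rw [G, Finset.mem_union, Finset.mem_image, Finset.mem_image] at hI
    rcases hI with ⟨i, -, rfl⟩ | ⟨i, -, rfl⟩
    · rw [l1]
      have : 0 < h ^ i := pow_pos h0 _
      have : 0 < 1 - h := by linarith
      positivity
    · rw [l2]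
      have : 0 < h ^ (2 * i) := pow_pos h0 _
      have : 0 < 1 - h ^ 2 := by nlinarith
      positivity
  apply disc_le hne
  intro I hI K hK
  rw [div_le_iff₀ (hpos K hK)]
  rcases Nat.eq_zero_or_pos s with hs0 | hs0
  · -- all intervals have level `k`
    subst hs0
    have hI' : ∃ i, i < 2 ^ k ∧ J k i = I := by simpa [G] using hI
    have hK' : ∃ i, i < 2 ^ k ∧ J k i = K := by simpa [G] using hK
    obtain ⟨i, -, rfl⟩ := hI'
    obtain ⟨j, hj, rfl⟩ := hK'
    rw [l2, l2]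
    have e1 : h ^ (2 * i) ≤ 1 := pow_le_one₀ h0.le h1.le
    have e2 := pow_ge hj
    rw [← hh] at e2
    have e3 : 1 ≤ (h + h ^ 2) * h ^ (2 * j) := by
      have : 2 * h ^ 2 ≤ h + h ^ 2 := by nlinarith
      have e4 : 0 < h ^ (2 * j) := pow_pos h0 _
      nlinarith
    have e5 : 0 ≤ 1 - h ^ 2 := by nlinarith
    calc 2 * h ^ (2 * i) * (1 - h ^ 2) ≤ 2 * 1 * (1 - h ^ 2) := by
          apply mul_le_mul_of_nonneg_right _ e5
          linarith
      _ ≤ 2 * ((h + h ^ 2) * h ^ (2 * j)) * (1 - h ^ 2) := by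
          apply mul_le_mul_of_nonneg_right _ e5
          linarith
      _ = (h + h ^ 2) * (2 * h ^ (2 * j) * (1 - h ^ 2)) := by ring
  · -- mixed case
    have hup : ∀ I ∈ G k s, len I ≤ 2 * h ^ (2 * s) * (1 - h ^ 2) := by
      intro I hI
      rw [G, Finset.mem_union, Finset.mem_image, Finset.mem_image] at hI
      rcases hI with ⟨i, hi, rfl⟩ | ⟨i, hi, rfl⟩
      · rw [l1]
        have e1 : h ^ i ≤ 1 := pow_le_one₀ h0.le h1.le
        have e2 := pow_ge hs
        rw [← hh] at e2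
        have e4 : 0 < h ^ (2 * s) := pow_pos h0 _
        have e3 : 1 ≤ h ^ (2 * s) * (1 + h) := by
          have : 2 * h ^ 2 ≤ 1 + h := by nlinarith
          nlinarith
        have e5 : 0 ≤ 1 - h := by linarith
        calc 2 * h ^ i * (1 - h) ≤ 2 * 1 * (1 - h) := by
              apply mul_le_mul_of_nonneg_right _ e5
              linarith
          _ ≤ 2 * (h ^ (2 * s) * (1 + h)) * (1 - h) := by
              apply mul_le_mul_of_nonneg_right _ e5
              linarith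
          _ = 2 * h ^ (2 * s) * (1 - h ^ 2) := by ring
      · rw [l2]
        rw [Finset.mem_Ico] at hi
        have e1 : h ^ (2 * i) ≤ h ^ (2 * s) :=
          pow_le_pow_of_le_one h0.le h1.le (by omega)
        have e5 : 0 ≤ 1 - h ^ 2 := by nlinarith
        apply mul_le_mul_of_nonneg_right _ e5
        linarith
    have hlow : ∀ I ∈ G k s, 2 * h ^ (2 * s - 1) * (1 - h) ≤ len I := by
      intro I hI
      rw [G, Finset.mem_union, Finset.mem_image, Finset.mem_image] at hI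
      rcases hI with ⟨i, hi, rfl⟩ | ⟨i, hi, rfl⟩
      · rw [l1]
        rw [Finset.mem_range] at hi
        have e1 : h ^ (2 * s - 1) ≤ h ^ i :=
          pow_le_pow_of_le_one h0.le h1.le (by omega)
        have e5 : 0 ≤ 1 - h := by linarith
        apply mul_le_mul_of_nonneg_right _ e5
        linarith
      · rw [l2]
        rw [Finset.mem_Ico] at hi
        have e2 := pow_ge hi.2
        rw [← hh] at e2
        have e4 : 0 < h ^ (2 * i) := pow_pos h0 _
        have e3 : 1 ≤ h ^ (2 * i) * (1 + h) := by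
          have : 2 * h ^ 2 ≤ 1 + h := by nlinarith
          nlinarith
        have e1 : h ^ (2 * s - 1) ≤ 1 := pow_le_one₀ h0.le h1.le
        have e5 : 0 ≤ 1 - h := by linarith
        calc 2 * h ^ (2 * s - 1) * (1 - h) ≤ 2 * 1 * (1 - h) := by
              apply mul_le_mul_of_nonneg_right _ e5
              linarith
          _ ≤ 2 * (h ^ (2 * i) * (1 + h)) * (1 - h) := by
              apply mul_le_mul_of_nonneg_right _ e5
              linarith
          _ = 2 * h ^ (2 * i) * (1 - h ^ 2) := by ring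
    have hk2 : 0 ≤ h + h ^ 2 := by positivity
    calc len I ≤ 2 * h ^ (2 * s) * (1 - h ^ 2) := hup I hI
      _ = (h + h ^ 2) * (2 * h ^ (2 * s - 1) * (1 - h)) := by
          have : 2 * s = (2 * s - 1) + 1 := by omega
          rw [this, pow_succ, Nat.add_sub_cancel]
          ring
      _ ≤ (h + h ^ 2) * len K := mul_le_mul_of_nonneg_left (hlow K hK) hk2

theorem r_mono' {j k : ℕ} (h : j ≤ k) : r j ≤ r k :=
  monotone_nat_of_le_succ r_mono h

/-- `disc_n(S) ≤ 2^(-1/(n+1)) + 2^(-2/(n+1))` for `n = 2^(k+1) - 1`. -/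
theorem discUpTo_S0 (k : ℕ) :
    discUpTo S0 (2 ^ (k + 1) - 1) ≤ r (k + 1) + r (k + 1) ^ 2 := by
  have hk : 1 ≤ 2 ^ k := Nat.one_le_two_pow
  apply discUpTo_le S0 (by rw [pow_succ]; omega)
  intro t h1 h2
  set j := Nat.log 2 t with hj
  have h3 : 2 ^ j ≤ t := Nat.pow_log_le_self 2 (by omega)
  have h4 : t < 2 ^ (j + 1) := Nat.lt_pow_succ_log_self (by norm_num) t
  obtain ⟨s, hs⟩ : ∃ s, t = 2 ^ j + s := ⟨t - 2 ^ j, by omega⟩
  have hs2 : s < 2 ^ j := by rw [pow_succ] at h4; omega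
  have hjk : j < k + 1 := by
    by_contra hcon
    have : 2 ^ (k + 1) ≤ 2 ^ j := Nat.pow_le_pow_right (by norm_num) (by omega)
    omega
  rw [hs, S0_part hs2]
  refine (disc_G hs2).trans ?_
  have e1 : r (j + 1) ≤ r (k + 1) := r_mono' (by omega)
  have e2 := r_pos (j + 1)
  nlinarith

theorem r_eq_exp (k : ℕ) : r k = Real.exp (-(Real.log 2 / 2 ^ k)) := by
  unfold r
  rw [Real.rpow_def_of_pos (by norm_num), one_div, Real.log_inv]
  congr 1
  ring

theorem exp_neg_le {x : ℝ} (hx : 0 ≤ x) : Real.exp (-x) ≤ 1 - x + x ^ 2 := by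
  have h1 : x + 1 ≤ Real.exp x := Real.add_one_le_exp x
  rw [Real.exp_neg]
  have h2 : (Real.exp x)⁻¹ ≤ (x + 1)⁻¹ := inv_anti₀ (by linarith) h1
  refine h2.trans ?_
  rw [inv_le_iff_one_le_mul₀ (by linarith)]
  nlinarith [pow_nonneg hx 3]

/-- **Disproof.** There is an infinite-length strategy `S` such that for every `c < 3 log 2`
(for instance `c = 3/2`) and every `C` some `n ≥ 1` has `disc_n(S) < 2 - c/n - C/n^2`. -/
theorem result : ∃ S : Strategy, ∀ c : ℝ, c < 3 * Real.log 2 → ∀ C : ℝ, ∃ n : ℕ, 1 ≤ n ∧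
    discUpTo S n < 2 - c / n - C / (n : ℝ) ^ 2 := by
  refine ⟨S0, ?_⟩
  intro c hc C
  set l := Real.log 2 with hl
  have hl0 : 0 < l := Real.log_pos (by norm_num)
  obtain ⟨k, hk⟩ := pow_unbounded_of_one_lt ((5 * l ^ 2 + 2 * |c| + 4 * |C|) / (3 * l - c))
    (show (1 : ℝ) < 2 by norm_num)
  have hd : 0 < 3 * l - c := by linarith
  rw [div_lt_iff₀ hd] at hk
  set N : ℝ := 2 ^ (k + 1) with hN
  have hN2 : N = 2 * 2 ^ k := by rw [hN, pow_succ]; ring
  have h2k : (1 : ℝ) ≤ 2 ^ k := one_le_pow₀ (by norm_num)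
  have hNk : (2 : ℝ) ^ k ≤ N := by rw [hN2]; linarith
  have hNge : 2 ≤ N := by rw [hN2]; linarith
  have hone : 1 ≤ 2 ^ (k + 1) := Nat.one_le_two_pow
  refine ⟨2 ^ (k + 1) - 1, ?_, ?_⟩
  · have : 1 ≤ 2 ^ k := Nat.one_le_two_pow
    rw [pow_succ]; omega
  · have hcast : ((2 ^ (k + 1) - 1 : ℕ) : ℝ) = N - 1 := by
      rw [Nat.cast_sub hone]; push_cast; rfl
    rw [hcast]
    refine (discUpTo_S0 k).trans_lt ?_
    set x := l / N with hx
    have hx0 : 0 ≤ x := by positivity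
    have e1 : r (k + 1) = Real.exp (-x) := r_eq_exp (k + 1)
    have e2 : r (k + 1) ^ 2 = Real.exp (-(2 * x)) := by
      rw [e1, ← Real.exp_nat_mul]; congr 1; push_cast; ring
    have e3 : r (k + 1) + r (k + 1) ^ 2 ≤ 2 - 3 * x + 5 * x ^ 2 := by
      rw [e2, e1]
      have a1 := exp_neg_le hx0
      have a2 := exp_neg_le (show 0 ≤ 2 * x by positivity)
      nlinarith
    refine e3.trans_lt ?_
    have hN0 : 0 < N := by linarith
    have hN1 : 0 < N - 1 := by linarith
    -- `c/(N-1) ≤ c/N + 2|c|/N^2` and `C/(N-1)^2 ≤ 4|C|/N^2`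
    have b1 : c / (N - 1) ≤ c / N + 2 * |c| / N ^ 2 := by
      rw [div_add_div _ _ hN0.ne' (by positivity), div_le_div_iff₀ hN1 (by positivity)]
      have a1 : c ≤ |c| := le_abs_self c
      have a2 : 0 ≤ |c| := abs_nonneg c
      have a3 : c * (N * N ^ 2) = c * N ^ 3 := by ring
      have a4 : (c * N ^ 2 + N * (2 * |c|)) * (N - 1) =
        c * N ^ 3 - c * N ^ 2 + 2 * |c| * (N * (N - 1)) := by ring
      rw [a3, a4]
      have a5 : c * N ^ 2 ≤ |c| * N ^ 2 := mul_le_mul_of_nonneg_right a1 (by positivity)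
      have a6 : N ^ 2 ≤ 2 * (N * (N - 1)) := by nlinarith
      have a7 : |c| * N ^ 2 ≤ |c| * (2 * (N * (N - 1))) := mul_le_mul_of_nonneg_left a6 a2
      nlinarith
    have b2 : C / (N - 1) ^ 2 ≤ 4 * |C| / N ^ 2 := by
      rw [div_le_div_iff₀ (by positivity) (by positivity)]
      have a1 : C ≤ |C| := le_abs_self C
      have a2 : 0 ≤ |C| := abs_nonneg C
      have a5 : C * N ^ 2 ≤ |C| * N ^ 2 := mul_le_mul_of_nonneg_right a1 (by positivity)
      have a6 : N ^ 2 ≤ 4 * (N - 1) ^ 2 := by nlinarith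
      have a7 : |C| * N ^ 2 ≤ |C| * (4 * (N - 1) ^ 2) := mul_le_mul_of_nonneg_left a6 a2
      nlinarith
    have b3 : 5 * x ^ 2 + (2 * |c| / N ^ 2 + 4 * |C| / N ^ 2) < 3 * x - c / N := by
      have a1 : 5 * x ^ 2 + (2 * |c| / N ^ 2 + 4 * |C| / N ^ 2) =
        (5 * l ^ 2 + 2 * |c| + 4 * |C|) / N ^ 2 := by
        rw [hx]; field_simp; ring
      have a2 : 3 * x - c / N = (3 * l - c) * N / N ^ 2 := by
        rw [hx]; field_simp
      rw [a1, a2]
      apply div_lt_div_of_pos_right _ (by positivity)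
      calc 5 * l ^ 2 + 2 * |c| + 4 * |C| < 2 ^ k * (3 * l - c) := hk
        _ ≤ N * (3 * l - c) := mul_le_mul_of_nonneg_right hNk hd.le
        _ = (3 * l - c) * N := by ring
    linarith

end Pool.Agent.Results.MP_32269d_co.Disproof
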