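import Pool.Agent.Lib.MP_32269d_co.Defs
import Pool.Agent.Lib.MP_32269d_co.Abstract

/-!
# For every infinite-length strategy, `∑_{2 ≤ n ≤ N} (2 - disc_n(S)) ≤ (3/2) log N + 1/2`
-/

namespace Pool.Agent.Results.MP_32269d_co.LogAverage

open Pool.Agent.Lib.MP_32269d_co Finset

/-- The case in which all ratios up to time `N` are less than two. -/
theorem main (S : Strategy) {N : ℕ} (hN : 2 ≤ N) (hD : discUpTo S N < 2) :
    ∑ n ∈ Icc 2 N, (2 - discUpTo S n) ≤ (3 / 2) * Real.log N + 1 / 2 := by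
  -- the step data
  have hstep : ∀ n, ∃ p : ℝ × ℝ × ℝ, 1 ≤ n → (p.1, p.2.1) ∈ S.part n ∧ p.1 < p.2.2 ∧
      p.2.2 < p.2.1 ∧ S.part (n + 1) =
        insert (p.1, p.2.2) (insert (p.2.2, p.2.1) ((S.part n).erase (p.1, p.2.1))) := by
    intro n
    by_cases hn : 1 ≤ n
    · obtain ⟨a, b, x, h⟩ := S.step n hn
      exact ⟨(a, b, x), fun _ => h⟩
    · exact ⟨(0, 0, 0), fun h => absurd h hn⟩
  choose p hp using hstep
  have hmax : ∀ n, ∃ I : ℝ × ℝ, 1 ≤ n → I ∈ S.part n ∧ ∀ J ∈ S.part n, len J ≤ len I := by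
    intro n
    by_cases hn : 1 ≤ n
    · have hne : (S.part n).Nonempty := by
        rw [← Finset.card_pos, S.card_part n hn]; omega
      obtain ⟨I, hI, h⟩ := Finset.exists_max_image (S.part n) len hne
      exact ⟨I, fun _ => ⟨hI, h⟩⟩
    · exact ⟨(0, 0), fun h => absurd h hn⟩
  choose q hq using hmax
  have hpos : ∀ n, 1 ≤ n → ∀ I ∈ S.part n, 0 < len I := by
    intro n hn I hI
    have := (S.inv n hn).1 I hI
    unfold len; linarith
  let L : ℕ → Multiset ℝ := fun n => (S.part n).val.map len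
  let R : ℕ → Multiset ℝ := fun n => ((S.part n).erase ((p n).1, (p n).2.1)).val.map len
  let M : ℕ → ℝ := fun n => len (q n)
  let b : ℕ → ℝ := fun n => max ((p n).2.2 - (p n).1) ((p n).2.1 - (p n).2.2)
  let c : ℕ → ℝ := fun n => min ((p n).2.2 - (p n).1) ((p n).2.1 - (p n).2.2)
  let D : ℕ → ℝ := fun n => discUpTo S n
  have hdata : Data N L R M b c D := by
    refine ⟨?_, ?_, ?_, ?_, ?_, ?_, ?_, ?_, ?_⟩
    · show (S.part 1).val.map len = {1}
      rw [S.start]
      simp [len]
    · intro s h1 h2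
      exact Multiset.mem_map_of_mem _ (hq s h1).1
    · intro s h1 h2 x hx
      obtain ⟨I, hI, rfl⟩ := Multiset.mem_map.1 hx
      exact (hq s h1).2 I hI
    · intro s h1 h2
      obtain ⟨h3, h4, h5, h6⟩ := hp s h1
      show (S.part s).val.map len = _
      have e1 : (S.part s).val = ((p s).1, (p s).2.1) ::ₘ
          ((S.part s).erase ((p s).1, (p s).2.1)).val := by
        rw [Finset.erase_val, Multiset.cons_erase h3]
      rw [e1, Multiset.map_cons]
      congr 1
      show (p s).2.1 - (p s).1 = max _ _ + min _ _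
      rw [max_add_min]; ring
    · intro s h1 h2
      obtain ⟨h3, h4, h5, h6⟩ := hp s h1
      obtain ⟨-, h7, h8⟩ := (S.inv s h1).cut h3 h4 h5
      show (S.part (s + 1)).val.map len = _
      rw [h6, Finset.insert_val_of_notMem h7, Finset.insert_val_of_notMem h8, Multiset.map_cons,
        Multiset.map_cons]
      show ((p s).2.2 - (p s).1) ::ₘ ((p s).2.1 - (p s).2.2) ::ₘ R s = b s ::ₘ c s ::ₘ R s
      rcases le_total ((p s).2.2 - (p s).1) ((p s).2.1 - (p s).2.2) with h9 | h9
      · have e1 : b s = (p s).2.1 - (p s).2.2 := max_eq_right h9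
        have e2 : c s = (p s).2.2 - (p s).1 := min_eq_left h9
        rw [e1, e2, Multiset.cons_swap]
      · have e1 : b s = (p s).2.2 - (p s).1 := max_eq_left h9
        have e2 : c s = (p s).2.1 - (p s).2.2 := min_eq_right h9
        rw [e1, e2]
    · intro s h1 h2
      obtain ⟨h3, h4, h5, h6⟩ := hp s h1
      exact lt_min (by linarith) (by linarith)
    · intro s h1 h2
      exact min_le_max
    · intro s h1 h2 x hx y hy
      obtain ⟨I, hI, rfl⟩ := Multiset.mem_map.1 hx
      obtain ⟨J, hJ, rfl⟩ := Multiset.mem_map.1 hy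
      have h3 := le_disc hI hJ
      rw [div_le_iff₀ (hpos s h1 J hJ)] at h3
      exact h3.trans (mul_le_mul_of_nonneg_right (disc_le_discUpTo S h1 le_rfl)
        (hpos s h1 J hJ).le)
    · intro s h1 h2
      exact (discUpTo_mono S h1 h2).trans_lt hD
  -- the longest interval at time `N` has length at least `1/N`
  have hMN : -Real.log (M N) ≤ Real.log N := by
    have h1 : (1 : ℝ) ≤ N * M N := by
      rw [← S.sum_len N (by omega), ← nsmul_eq_mul]
      have h2 : (S.part N).card = N := S.card_part N (by omega)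
      calc ∑ I ∈ S.part N, len I ≤ ∑ _I ∈ S.part N, M N :=
            Finset.sum_le_sum fun I hI => (hq N (by omega)).2 I hI
        _ = N • M N := by rw [Finset.sum_const, h2]
    have hN0 : (0 : ℝ) < N := by positivity
    have hM0 : 0 < M N := hpos N (by omega) _ (hq N (by omega)).1
    have h2 : 0 ≤ Real.log (N * M N) := Real.log_nonneg h1
    rw [Real.log_mul hN0.ne' hM0.ne'] at h2
    linarith
  have hw := (hdata.weighted (by omega) le_rfl).trans hMN
  obtain ⟨n, rfl⟩ : ∃ n, N = n + 1 := ⟨N - 1, by omega⟩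
  have hab := abel (w := lam M b c) (u := fun t => 2 - D (t + 1)) (a := 4 / 3) (e := 2 / 3)
    (n := n) (by omega) (fun m h1 h2 => hdata.sum_lam (by omega))
    (fun t h1 h2 => by
      have := discUpTo_mono S (m := t + 1) (n := t + 1 + 1) (by omega) (by omega)
      show 2 - discUpTo S (t + 1 + 1) ≤ 2 - discUpTo S (t + 1)
      linarith)
  have hsum := hdata.sum_lam (S := n) (by omega)
  have hun : 0 < 2 - D (n + 1) := by
    have := hdata.D2 (n + 1) (by omega) le_rfl
    linarith
  have hextra : 0 ≤ (∑ t ∈ Ico 1 (n + 1), lam M b c t - (4 / 3 * (n : ℝ) - 2 / 3)) *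
      (2 - D (n + 1)) := mul_nonneg (by linarith) hun.le
  have hD2 : 1 ≤ D 2 := by
    have hI := (hq 2 (by omega)).1
    have h1 := le_disc hI hI
    rw [div_self (hpos 2 (by omega) _ hI).ne'] at h1
    exact h1.trans (disc_le_discUpTo S (by omega) le_rfl)
  have hshift : ∑ m ∈ Icc 2 (n + 1), (2 - discUpTo S m) =
      ∑ t ∈ Ico 1 (n + 1), (2 - D (t + 1)) := by
    rw [Finset.sum_Ico_add' (fun t => 2 - D t) 1 (n + 1) 1]
    rfl
  rw [hshift]
  have e1 : (fun t => 2 - D (t + 1)) 1 = 2 - D 2 := rfl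
  have e3 : (2 : ℝ) - D (1 + 1) = 2 - D 2 := rfl
  rw [e3] at hab
  linarith

/-- For every infinite-length strategy `S` and every `N ≥ 1`,
`∑_{2 ≤ n ≤ N} (2 - disc_n(S)) ≤ (3/2) log N + 1/2`. -/
theorem result (S : Strategy) (N : ℕ) (hN : 1 ≤ N) :
    ∑ n ∈ Finset.Icc 2 N, (2 - discUpTo S n) ≤ (3 / 2) * Real.log N + 1 / 2 := by
  induction N, hN using Nat.le_induction with
  | base => norm_num
  | succ n hn ih =>
    rcases lt_or_ge (discUpTo S (n + 1)) 2 with h | h
    · exact main S (by omega) h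
    · have e1 : Finset.Icc 2 (n + 1) = insert (n + 1) (Finset.Icc 2 n) := by
        ext k; simp only [Finset.mem_insert, Finset.mem_Icc]; omega
      rw [e1, Finset.sum_insert (by simp)]
      have h1 : Real.log n ≤ Real.log ((n + 1 : ℕ) : ℝ) := by
        apply Real.log_le_log (by exact_mod_cast hn)
        push_cast; linarith
      linarith

end Pool.Agent.Results.MP_32269d_co.LogAverage
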